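import Pool.Agent.Q213.CF.Main

/-!
# Fréchet `C`-selective spaces are strongly `C`-selective

Q1 asks whether there is a Fréchet `C`-selective space which is not strongly `C`-selective. The
answer is no.

* In a `C`-selective `T₁` space `X` all countable subspaces are first countable. Let `x` be a point and
  `e₀, e₁, …` countably many other points. Take the set of all pairs `(i, j)` with one more point `∞`,
  the neighbourhoods of which are generated by the sets of all pairs with `eᵢ ∈ U` or `eⱼ ∈ U`, for
  neighbourhoods `U` of `x`; the pairs are isolated. The map `(i, j) ↦ {eᵢ, eⱼ}`, `∞ ↦ {x}` has finite
  values and is lower semicontinuous. If `s` is a continuous selection of it, then the sets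
  `{x} ∪ {eⱼ : s (i, j) = eⱼ}`, for all `i`, are a base at `x` (if `x` is in the closure of the `eᵢ`).
* Let `X` be moreover Fréchet and `φ` lower semicontinuous on the countable regular space `Y`. For
  `x ∈ φ y` the map `z ↦ closure (φ z)`, `y ↦ {x}`, on `Y` with all points except `y` isolated, has a
  continuous selection `s`; take sequences in `φ z` that converge to `s z`. Closing off countably many
  times one gets a lower semicontinuous map with countable values below `φ`.
* So Michael's theorem for first countable spaces, applied in a countable subspace, gives a selection.
-/

set_option autoImplicit false

universe u

namespace Pool.Agent.Results.MP_f865b7_gt.StronglyCSelective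

open Pool.Agent.Q213.CS Pool.Agent.Q213.CF

/-- Every Fréchet `C`-selective `T₁` space is strongly `C`-selective. -/
theorem result (X : Type u) [TopologicalSpace X] [T1Space X] [FrechetUrysohnSpace X]
    (hX : CSelective X) : StronglyCSelective X :=
  main hX

end Pool.Agent.Results.MP_f865b7_gt.StronglyCSelective
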